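import Mathlib
import Pool.Agent.V5helper2.CF.Ctl
import Pool.Agent.V5helper2.NR.Asm3
import Pool.Agent.V5helper2.NR.TRI
import Pool.Agent.V5helper2.NR.RHO
import Pool.Agent.V5helper2.NR.DEG
import Pool.Agent.V5helper27.NR.ATM
import Pool.Agent.V5helper1.NR.CMP
import Pool.Agent.V5helper76.NR.ORT
import Pool.Agent.V5helper2.NR.SLW
import Pool.Agent.V5helper53.NR.QPM
import Pool.Agent.V5helper1.NR.SPC
import Pool.Agent.V5helper75.NR.QDT
import Pool.Agent.V5helper47.NR.DIA

set_option autoImplicit false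
open MeasureTheory Filter Topology

namespace Pool.Agent.Results.MP_cfac66_an.NoTripleResonance

/-- The number `z` is absent from the sequence `a` (it is not a frequency of `a`): the Fourier
averages `H⁻¹ ∑_{h<H} z^h a(n+h)` over windows of length `H` tend to zero in quadratic mean over
`n`, as `H → ∞`.  For `a n = λ ^ n` with `|λ| = 1` every `z` with `|z| = 1` and `z * λ ≠ 1` is
absent, and `z = λ⁻¹` is not. -/
def Absent (z : ℂ) (a : ℕ → ℂ) : Prop :=
  ∀ ε > (0 : ℝ), ∃ H₀ : ℕ, ∀ H ≥ H₀, ∃ N₀ : ℕ, ∀ N ≥ N₀,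
    (N : ℝ)⁻¹ * ∑ n ∈ Finset.range N,
      ‖(H : ℂ)⁻¹ * ∑ h ∈ Finset.range H, z ^ h * a (n + h)‖ ^ 2 ≤ ε

/-- The visiting sequence of the point `x` to the set `A` under `T`. -/
noncomputable def visits {Ω : Type} (T : Ω → Ω) (A : Set Ω) (x : Ω) (n : ℕ) : ℂ :=
  A.indicator (fun _ => (1 : ℂ)) (T^[n] x)

/-- `A` has only countably many triple resonances under `T`, `S`, `R`: for all constants `c`, `d`
of modulus one there is a countable set `Λ` such that for almost every `x` and every `z` with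
`|z| = 1` outside `Λ`: `z` is absent from the visits under `T`, or `c z²` is absent from the visits
under `S`, or `d z` is absent from the visits under `R`. -/
def CountablyManyTripleResonances {Ω : Type} [MeasurableSpace Ω] (μ : Measure Ω)
    (T S R : Ω → Ω) (A : Set Ω) : Prop :=
  ∀ c d : ℂ, ‖c‖ = 1 → ‖d‖ = 1 → ∃ Λ : Set ℂ, Λ.Countable ∧ ∀ᵐ x ∂μ, ∀ z : ℂ, ‖z‖ = 1 → z ∉ Λ →
    Absent z (visits T A x) ∨ Absent (c * z ^ 2) (visits S A x) ∨ Absent (d * z) (visits R A x)

/-- `A` has only countably many triple resonances on the components of some decomposition of `μ`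
into invariant measures: there are a probability space `(Y, ν)` and a measurable family of
probability measures `κ y` on `Ω` with `μ = ∫ κ y dν(y)`, such that for almost every `y` the maps
`T`, `S`, `R` preserve `κ y` and `A` has only countably many triple resonances with respect to
`κ y`.  (If `Y` is one point this is `CountablyManyTripleResonances`, see `of_resonances`; on
standard spaces one may take the ergodic decomposition of `μ` for the group generated by `T`, `S`,
`R`.) -/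
def ResonancesOnComponents {Ω : Type} [MeasurableSpace Ω] (μ : Measure Ω)
    (T S R : Ω → Ω) (A : Set Ω) : Prop :=
  ∃ (Y : Type) (_ : MeasurableSpace Y) (ν : Measure Y) (κ : ProbabilityTheory.Kernel Y Ω),
    IsProbabilityMeasure ν ∧ ProbabilityTheory.IsMarkovKernel κ ∧ μ = ν.bind κ ∧
    ∀ᵐ y ∂ν, MeasurePreserving T (κ y) (κ y) ∧ MeasurePreserving S (κ y) (κ y) ∧
      MeasurePreserving R (κ y) (κ y) ∧ CountablyManyTripleResonances (κ y) T S R A

end Pool.Agent.Results.MP_cfac66_an.NoTripleResonance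

namespace Pool.Agent.Results.MP_cfac66_an.NoTripleResonance

open Pool.Agent.Helper498.NCR Pool.Agent.V5helper2.CF

/-- sums of sequences with `b (h + k) = w * b h`, `w ≠ 1`, are bounded -/
private lemma sum_bounded {b : ℕ → ℂ} {k : ℕ} {w : ℂ} (hper : ∀ n, b (n + k) = w * b n)
    (hbd : ∀ n, ‖b n‖ ≤ 1) (hne : (1 - w) ≠ 0) (N : ℕ) :
    ‖∑ n ∈ Finset.range N, b n‖ ≤ ‖1 - w‖⁻¹ * (2 * k) := by
  have hsum : (1 - w) * ∑ n ∈ Finset.range N, b n
      = ∑ n ∈ Finset.range k, b n - ∑ n ∈ Finset.range k, b (N + n) := by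
    have h1 : ∑ n ∈ Finset.range N, b (n + k) = w * ∑ n ∈ Finset.range N, b n := by
      rw [Finset.mul_sum]; exact Finset.sum_congr rfl fun n _ => hper n
    have h2 : ∑ n ∈ Finset.range (N + k), b n
        = ∑ n ∈ Finset.range N, b n + ∑ n ∈ Finset.range k, b (N + n) :=
      Finset.sum_range_add _ _ _
    have h3 : ∑ n ∈ Finset.range (k + N), b n
        = ∑ n ∈ Finset.range k, b n + ∑ n ∈ Finset.range N, b (k + n) :=
      Finset.sum_range_add _ _ _
    rw [add_comm k N] at h3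
    have h4 : ∑ n ∈ Finset.range N, b (k + n) = ∑ n ∈ Finset.range N, b (n + k) :=
      Finset.sum_congr rfl fun n _ => by rw [add_comm]
    rw [h4, h1] at h3
    linear_combination (-1 : ℂ) * h2 + h3
  have h5 : ∑ n ∈ Finset.range N, b n = (1 - w)⁻¹ *
      (∑ n ∈ Finset.range k, b n - ∑ n ∈ Finset.range k, b (N + n)) := by
    rw [← hsum]; field_simp
  rw [h5, norm_mul, norm_inv]
  refine mul_le_mul_of_nonneg_left ?_ (by positivity)
  have h6 : ‖∑ n ∈ Finset.range k, b n‖ ≤ k :=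
    (norm_sum_le _ _).trans ((Finset.sum_le_sum fun n _ => hbd n).trans (by simp))
  have h7 : ‖∑ n ∈ Finset.range k, b (N + n)‖ ≤ k :=
    (norm_sum_le _ _).trans ((Finset.sum_le_sum fun n _ => hbd _).trans (by simp))
  calc _ ≤ _ := norm_sub_le _ _
    _ ≤ 2 * k := by linarith

/-- Sanity check: if `T^k` is the identity then every `z` with `|z| = 1`, `z ^ k ≠ 1` is absent
from all visiting sequences. -/
theorem absent_of_periodic {Ω : Type} (T : Ω → Ω) (k : ℕ) (hT : T^[k] = id) (A : Set Ω) (x : Ω)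
    (z : ℂ) (hz : ‖z‖ = 1) (hzk : z ^ k ≠ 1) : Absent z (visits T A x) := by
  intro ε hε
  have hne : (1 - z ^ k) ≠ 0 := fun h => hzk (by linear_combination -h)
  set C : ℝ := ‖1 - z ^ k‖⁻¹ * (2 * k) with hC
  have hper : ∀ n, visits T A x (n + k) = visits T A x n := by
    intro n
    unfold visits
    rw [Function.iterate_add_apply, hT]; rfl
  have hbd : ∀ n, ‖visits T A x n‖ ≤ 1 := by
    intro n
    unfold visits
    by_cases h : T^[n] x ∈ A
    · simp [h]
    · simp [h]
  have hloc : ∀ n H : ℕ, ‖∑ h ∈ Finset.range H, z ^ h * visits T A x (n + h)‖ ≤ C := by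
    intro n H
    refine sum_bounded (b := fun h => z ^ h * visits T A x (n + h)) (fun h => ?_) (fun h => ?_)
      hne H
    · rw [show n + (h + k) = (n + h) + k by ring, hper, pow_add]; ring
    · rw [norm_mul, norm_pow, hz, one_pow, one_mul]; exact hbd _
  have hlim : Tendsto (fun H : ℕ => (C / (H : ℝ)) ^ 2) atTop (𝓝 0) := by
    have := (tendsto_const_div_atTop_nhds_zero_nat C).pow 2
    simpa using this
  obtain ⟨H₀, hH₀⟩ := eventually_atTop.1 (hlim.eventually (gt_mem_nhds hε))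
  refine ⟨H₀, fun H hH => ⟨1, fun N hN => ?_⟩⟩
  have hN0 : (0 : ℝ) < N := by exact_mod_cast hN
  rw [inv_mul_le_iff₀ hN0]
  have h1 : ∀ n ∈ Finset.range N,
      ‖(H : ℂ)⁻¹ * ∑ h ∈ Finset.range H, z ^ h * visits T A x (n + h)‖ ^ 2 ≤ ε := by
    intro n _
    refine le_trans (pow_le_pow_left₀ (norm_nonneg _) ?_ 2) (hH₀ H hH).le
    rw [norm_mul, norm_inv, Complex.norm_natCast, div_eq_inv_mul]
    exact mul_le_mul_of_nonneg_left (hloc n H) (by positivity)
  calc _ ≤ ∑ n ∈ Finset.range N, ε := Finset.sum_le_sum h1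
    _ = N * ε := by rw [Finset.sum_const, Finset.card_range, nsmul_eq_mul]

/-- Sanity check: if `T^k` is the identity for some `k ≥ 1` then the hypothesis of `result` holds
for all sets and all maps `S`, `R`. -/
theorem of_periodic {Ω : Type} [MeasurableSpace Ω] (μ : Measure Ω) (T S R : Ω → Ω) (k : ℕ)
    (hk : 1 ≤ k) (hT : T^[k] = id) (A : Set Ω) : CountablyManyTripleResonances μ T S R A := by
  intro c d _ _
  refine ⟨{z : ℂ | z ^ k = 1}, ?_, Eventually.of_forall fun x z hz hzk =>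
    Or.inl (absent_of_periodic T k hT A x z hz hzk)⟩
  refine Set.Finite.countable ?_
  have hp : (Polynomial.X ^ k - 1 : Polynomial ℂ) ≠ 0 := by
    intro h
    have h1 := congrArg (Polynomial.eval 0) h
    have hk0 : k ≠ 0 := by omega
    simp [hk0] at h1
  refine Set.Finite.subset (Polynomial.X ^ k - 1 : Polynomial ℂ).roots.toFinset.finite_toSet ?_
  intro z hz
  have hz' : z ^ k = 1 := hz
  simp [Polynomial.mem_roots hp, hz']

private lemma tri : Pool.Agent.V5helper2.NR.S_TRI :=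
  Pool.Agent.V5helper2.NR.t_TRI Pool.Agent.V5helper2.NR.t_RHO Pool.Agent.V5helper27.NR.t_ATM
    V5helper1.NR.t_SPC Pool.Agent.V5helper47.NR.t_DIA
    (Pool.Agent.V5helper75.NR.t_QDT Pool.Agent.V5helper2.NR.t_DEG Pool.Agent.V5helper53.NR.t_QPM)
    Pool.Agent.V5helper2.NR.t_SLW

section forms

private lemma cf_m : CharForm (fun m _ => m) := fun l hl =>
  ⟨l, 1, hl, by simp, fun m n => by simp⟩

private lemma cf_mn : CharForm (fun m n => m + n) := fun l hl =>
  ⟨l, l, hl, hl, fun m n => by rw [pow_add]⟩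

private lemma cf_m2n : CharForm (fun m n => m + 2 * n) := fun l hl =>
  ⟨l, l ^ 2, hl, by simp [hl], fun m n => by rw [pow_add, pow_mul]⟩

private lemma ne_zero_of_norm {a : ℂ} (h : ‖a‖ = 1) : a ≠ 0 := fun h0 => by simp [h0] at h

private lemma abs1 (α β : ℂ) (hα : ‖α‖ = 1) (hβ : ‖β‖ = 1) : ∃ A B : ℂ, ‖A‖ = 1 ∧ ‖B‖ = 1 ∧
    ∀ m n : ℕ, α ^ m * β ^ n = A ^ (m + n) * B ^ (m + 2 * n) := by
  have h1 := ne_zero_of_norm hα
  have h2 := ne_zero_of_norm hβ
  refine ⟨α ^ 2 * β⁻¹, α⁻¹ * β, by simp [hα, hβ], by simp [hα, hβ], fun m n => ?_⟩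
  have e1 : (α ^ 2 * β⁻¹) * (α⁻¹ * β) = α := by field_simp
  have e2 : (α ^ 2 * β⁻¹) * (α⁻¹ * β) ^ 2 = β := by field_simp
  calc α ^ m * β ^ n = ((α ^ 2 * β⁻¹) * (α⁻¹ * β)) ^ m * ((α ^ 2 * β⁻¹) * (α⁻¹ * β) ^ 2) ^ n := by
        rw [e1, e2]
    _ = _ := by ring

end forms

/-- Sanity check: the one-point decomposition. -/
theorem of_resonances {Ω : Type} [MeasurableSpace Ω] (μ : Measure Ω) [IsProbabilityMeasure μ]
    (T S R : Ω → Ω) (hT : MeasurePreserving T μ μ) (hS : MeasurePreserving S μ μ)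
    (hR : MeasurePreserving R μ μ) (A : Set Ω) (h : CountablyManyTripleResonances μ T S R A) :
    ResonancesOnComponents μ T S R A := by
  refine ⟨Unit, inferInstance, Measure.dirac (), ProbabilityTheory.Kernel.const Unit μ,
    inferInstance, inferInstance, ?_, ?_⟩
  · rw [Measure.dirac_bind (ProbabilityTheory.Kernel.measurable _)]
    rfl
  · refine Eventually.of_forall fun y => ?_
    rw [ProbabilityTheory.Kernel.const_apply]
    exact ⟨hT, hS, hR, h⟩

/-- Multiple recurrence if the set has only countably many triple resonances. -/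
theorem recurrence :
    ∀ (Ω : Type) [MeasurableSpace Ω] (μ : Measure Ω) [IsProbabilityMeasure μ]
      (T S R : Ω ≃ᵐ Ω),
      MeasurePreserving T μ μ → MeasurePreserving S μ μ → MeasurePreserving R μ μ →
      ∀ A : Set Ω, MeasurableSet A → μ A ≠ 0 →
        CountablyManyTripleResonances μ T S R A →
        ∃ m n : ℕ, 1 ≤ m ∧ 1 ≤ n ∧
          μ (A ∩ (⇑T)^[m] ⁻¹' A ∩ (⇑S)^[m + n] ⁻¹' A ∩ (⇑R)^[m + 2 * n] ⁻¹' A) ≠ 0 := by
  intro Ω _ μ _ T S R hT hS hR A hA hμA hF
  exact main_abs2 hT hS hR (fun m _ => m) (fun m n => m + n) (fun m n => m + 2 * n) hA hμA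
    (fun f hf h0 h1 hE ho A' B' hA' hB' ε hε => by
      refine Pool.Agent.V5helper2.NR.control_tri V5helper1.NR.t_CMP Pool.Agent.V5helper76.NR.t_ORT tri hT hS hR hA hf h0 h1 hE ho
        A' B' hA' hB' ?_ ε hε
      obtain ⟨Λ, hΛ, h⟩ := hF (starRingEnd ℂ A') B' (by rwa [RCLike.norm_conj]) hB'
      refine ⟨Λ, hΛ, h.mono fun x hx z hz hzΛ => ?_⟩
      rcases hx z hz hzΛ with h | h | h
      · exact Or.inl h
      · refine Or.inr (Or.inl ?_)
        have h' := Pool.Agent.V5helper2.NR.absent_conj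
          (a := fun n => cind A ((⇑S)^[n] x)) (fun n => ?_) h
        · simpa only [map_mul, map_pow, Complex.conj_conj] using h'
        · unfold cind
          by_cases hx : (⇑S)^[n] x ∈ A
          · simp [Set.indicator_of_mem hx]
          · simp [Set.indicator_of_notMem hx]
      · exact Or.inr (Or.inr h))
    abs1 cf_m cf_mn cf_m2n
    1 le_rfl (by norm_num)
    (fun J => ⟨fun j => 2 * j, fun j => J - j, J, 2 * J, 2 * J, by intros; (try simp only); (try omega),
      by intros; (try simp only); (try omega), by intros; (try simp only); (try omega)⟩)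
    1 le_rfl (by norm_num)
    (fun J => ⟨fun j => J - j, fun j => j, J, J, J, by intros; (try simp only); (try omega),
      by intros; (try simp only); (try omega), by intros; (try simp only); (try omega)⟩)

/-- **Multiple recurrence for three non-commuting transformations, if the set has only countably
many triple resonances on almost every component.** -/
theorem result :
    ∀ (Ω : Type) [MeasurableSpace Ω] (μ : Measure Ω) [IsProbabilityMeasure μ]
      (T S R : Ω ≃ᵐ Ω),
      MeasurePreserving T μ μ → MeasurePreserving S μ μ → MeasurePreserving R μ μ →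
      ∀ A : Set Ω, MeasurableSet A → μ A ≠ 0 →
        ResonancesOnComponents μ T S R A →
        ∃ m n : ℕ, 1 ≤ m ∧ 1 ≤ n ∧
          μ (A ∩ (⇑T)^[m] ⁻¹' A ∩ (⇑S)^[m + n] ⁻¹' A ∩ (⇑R)^[m + 2 * n] ⁻¹' A) ≠ 0 := by
  intro Ω _ μ _ T S R _ _ _ A hA hμA hF
  obtain ⟨Y, mY, ν, κ, hν, hκ, hμ, hy⟩ := hF
  by_contra hcon
  push Not at hcon
  have hE : ∀ m n : ℕ, MeasurableSet
      (A ∩ (⇑T)^[m] ⁻¹' A ∩ (⇑S)^[m + n] ⁻¹' A ∩ (⇑R)^[m + 2 * n] ⁻¹' A) := fun m n =>
    ((hA.inter (T.measurable.iterate m hA)).inter (S.measurable.iterate (m + n) hA)).inter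
      (R.measurable.iterate (m + 2 * n) hA)
  have h1 : ∀ᵐ y ∂ν, ∀ m n : ℕ, 1 ≤ m → 1 ≤ n → κ y
      (A ∩ (⇑T)^[m] ⁻¹' A ∩ (⇑S)^[m + n] ⁻¹' A ∩ (⇑R)^[m + 2 * n] ⁻¹' A) = 0 := by
    rw [ae_all_iff]; intro m
    rw [ae_all_iff]; intro n
    by_cases hmn : 1 ≤ m ∧ 1 ≤ n
    · have h2 := hcon m n hmn.1 hmn.2
      rw [hμ, Measure.bind_apply (hE m n) κ.aemeasurable,
        lintegral_eq_zero_iff (κ.measurable_coe (hE m n))] at h2
      filter_upwards [h2] with y hy _ _
      exact hy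
    · exact Eventually.of_forall fun y q1 q2 => absurd ⟨q1, q2⟩ hmn
  refine hμA ?_
  rw [hμ, Measure.bind_apply hA κ.aemeasurable, lintegral_eq_zero_iff (κ.measurable_coe hA)]
  filter_upwards [h1, hy] with y q1 q2
  by_contra q3
  obtain ⟨q4, q5, q6, q7⟩ := q2
  obtain ⟨m, n, hm, hn, hmn⟩ := recurrence Ω (κ y) T S R q4 q5 q6 A hA q3 q7
  exact hmn (q1 m n hm hn)

end Pool.Agent.Results.MP_cfac66_an.NoTripleResonance
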